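import Pool.Agent.Lib.MP_01886a_al.Statement
import Pool.Agent.Lib.MP_01886a_al.Main

/-! If the graded Betti numbers of the edge ideal of a finite simple graph depend on the field, then
so do the graded Betti numbers of the square of the edge ideal of the cone over the graph. -/

namespace Pool.Agent.Results.MP_01886a_al.SquareBettiDependence

open Pool.Agent.ConeBetti

/-- For every finite simple graph `G` (connected or not): if the graded Betti numbers of `I(G)`
depend on the field, then the graded Betti numbers of `J ^ 2` depend on the field, where `J` is the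
edge ideal of the cone over `G`. -/
theorem result (n : ℕ) (G : SimpleGraph (Fin n))
    (h : FieldDependent (fun k _ => edgeIdeal k G)) :
    FieldDependent (fun k _ => coneSq k G) := by
  have main : ∀ (k : Type) [Field k] (i j : ℕ),
      betti (edgeIdeal k G) i j ≠ betti (edgeIdeal ℚ G) i j →
      betti (coneSq k G) (i + 1) (j + 2) ≠ betti (coneSq ℚ G) (i + 1) (j + 2) := by
    intro k _ i j h
    have h1 := (Pool.Agent.ConeEdge.betti_sq_cone k G (i := i) (j := j) h).ne'
    rw [sq, sq] at h1
    exact h1
  obtain ⟨k, k', hk, hk', i, j, hne⟩ := h
  by_cases h1 : betti (edgeIdeal k G) i j = betti (edgeIdeal ℚ G) i j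
  · have h2 : betti (edgeIdeal k' G) i j ≠ betti (edgeIdeal ℚ G) i j := by
      intro h3
      exact hne (h1.trans h3.symm)
    exact ⟨k', ℚ, hk', inferInstance, i + 1, j + 2, main k' i j h2⟩
  · exact ⟨k, ℚ, hk, inferInstance, i + 1, j + 2, main k i j h1⟩

end Pool.Agent.Results.MP_01886a_al.SquareBettiDependence
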